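import Pool.Agent.W106.CW.Stm

set_option autoImplicit false

namespace Pool.Agent.W481.CW

open Set Filter Topology MeasureTheory Pool.Agent.W106.CW

theorem sec_cont {f : ℝ → ℝ → ℝ}
    (hf : ContinuousOn (fun p : ℝ × ℝ => f p.1 p.2) (Set.univ ×ˢ Set.Ioo 0 1)) (s : ℝ) :
    ContinuousOn (f s) (Set.Ioo 0 1) := by
  have h : ContinuousOn (fun t : ℝ => ((s, t) : ℝ × ℝ)) (Set.Ioo 0 1) := by fun_prop
  exact hf.comp h fun t ht => ⟨mem_univ _, ht⟩

theorem uIcc_sub {a b : ℝ} (ha : 0 < a) (ha1 : a < 1) (hb : 0 < b) (hb1 : b < 1) :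
    uIcc a b ⊆ Ioo 0 1 := by
  intro t ht
  rw [mem_uIcc] at ht
  constructor
  · rcases ht with h | h <;> linarith [h.1, h.2]
  · rcases ht with h | h <;> linarith [h.1, h.2]

theorem sec_int {f : ℝ → ℝ → ℝ}
    (hf : ContinuousOn (fun p : ℝ × ℝ => f p.1 p.2) (Set.univ ×ˢ Set.Ioo 0 1)) (s : ℝ) {a b : ℝ}
    (ha : 0 < a) (ha1 : a < 1) (hb : 0 < b) (hb1 : b < 1) :
    IntervalIntegrable (f s) volume a b :=
  ((sec_cont hf s).mono (uIcc_sub ha ha1 hb hb1)).intervalIntegrable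

theorem end_der {f : ℝ → ℝ → ℝ}
    (hf : ContinuousOn (fun p : ℝ × ℝ => f p.1 p.2) (Set.univ ×ˢ Set.Ioo 0 1)) (s : ℝ)
    (b : ℝ → ℝ) (b' : ℝ) (hb : HasDerivAt b b' 0) (hb0 : 0 < b 0) (hb1 : b 0 < 1) :
    HasDerivAt (fun τ => ∫ t in (b 0)..(b τ), f (s + τ) t) (f s (b 0) * b') 0 := by
  have hbc : ContinuousAt b 0 := hb.continuousAt
  have hev : ∀ᶠ τ in 𝓝 (0 : ℝ), b τ ∈ Ioo (0 : ℝ) 1 :=
    hbc.eventually (isOpen_Ioo.mem_nhds ⟨hb0, hb1⟩)
  have hfc : ContinuousAt (fun p : ℝ × ℝ => f p.1 p.2) (s, b 0) :=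
    hf.continuousAt ((isOpen_univ.prod isOpen_Ioo).mem_nhds ⟨mem_univ _, hb0, hb1⟩)
  have hsmall : (fun τ => (∫ t in (b 0)..(b τ), f (s + τ) t) - f s (b 0) * (b τ - b 0)) =o[𝓝 0]
      (fun τ => b τ - b 0) := by
    rw [Asymptotics.isLittleO_iff]
    intro ε hε
    obtain ⟨δ, hδ, hball⟩ := Metric.continuousAt_iff.1 hfc ε hε
    have h1 : ∀ᶠ τ in 𝓝 (0 : ℝ), dist (b τ) (b 0) < δ := Metric.continuousAt_iff'.1 hbc δ hδ
    have h2 : ∀ᶠ τ in 𝓝 (0 : ℝ), dist τ 0 < δ := Metric.ball_mem_nhds _ hδ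
    filter_upwards [hev, h1, h2] with τ g0 g1 g2
    have hint := sec_int hf (s + τ) hb0 hb1 g0.1 g0.2
    have e1 : (∫ t in (b 0)..(b τ), f (s + τ) t) - f s (b 0) * (b τ - b 0) =
        ∫ t in (b 0)..(b τ), (f (s + τ) t - f s (b 0)) := by
      rw [intervalIntegral.integral_sub hint intervalIntegrable_const,
        intervalIntegral.integral_const, smul_eq_mul]
      ring
    rw [e1]
    have h3 := intervalIntegral.norm_integral_le_of_norm_le_const (a := b 0) (b := b τ) (C := ε)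
      (f := fun t => f (s + τ) t - f s (b 0)) ?_
    · rwa [← Real.norm_eq_abs] at h3
    · intro t ht
      have ht' : t ∈ uIcc (b 0) (b τ) := uIoc_subset_uIcc ht
      have hd : dist ((s + τ, t) : ℝ × ℝ) (s, b 0) < δ := by
        rw [Prod.dist_eq, max_lt_iff]
        constructor
        · rw [Real.dist_eq] at g2 ⊢
          have : s + τ - s = τ - 0 := by ring
          simpa [this] using g2
        · refine lt_of_le_of_lt ?_ g1
          rw [Real.dist_eq, Real.dist_eq]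
          exact abs_sub_left_of_mem_uIcc ht'
      have := hball hd
      rw [Real.dist_eq] at this
      exact this.le
  have hO : (fun τ => (∫ t in (b 0)..(b τ), f (s + τ) t) - f s (b 0) * (b τ - b 0)) =o[𝓝 0]
      (fun τ => τ - 0) := hsmall.trans_isBigO hb.isBigO_sub
  have hD1 : HasDerivAt (fun τ => (∫ t in (b 0)..(b τ), f (s + τ) t) - f s (b 0) * (b τ - b 0)) 0 0 := by
    rw [hasDerivAt_iff_isLittleO]
    refine hO.congr_left fun τ => ?_
    simp
  have hD2 : HasDerivAt (fun τ => f s (b 0) * (b τ - b 0)) (f s (b 0) * b') 0 :=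
    (hb.sub_const (b 0)).const_mul _
  have := hD1.add hD2
  rw [zero_add] at this
  refine this.congr_of_eventuallyEq (Eventually.of_forall fun τ => ?_)
  simp

theorem parInt : ParInt := by
  intro f g hder hf hg s a b a' b' ha hb ha0 ha1 hb0 hb1
  -- the main term
  have hsub := uIcc_sub ha0 ha1 hb0 hb1
  have hcpt : IsCompact (Icc (-1 + s) (1 + s) ×ˢ uIcc (a 0) (b 0)) :=
    isCompact_Icc.prod isCompact_uIcc
  have hgc : ContinuousOn (fun p : ℝ × ℝ => g p.1 p.2) (Icc (-1 + s) (1 + s) ×ˢ uIcc (a 0) (b 0)) :=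
    hg.mono (prod_mono (subset_univ _) hsub)
  obtain ⟨K, hK⟩ := hcpt.exists_bound_of_continuousOn hgc
  have hmain : HasDerivAt (fun τ => ∫ t in (a 0)..(b 0), f (s + τ) t)
      (∫ t in (a 0)..(b 0), g (s + 0) t) 0 := by
    refine (intervalIntegral.hasDerivAt_integral_of_dominated_loc_of_deriv_le
      (F := fun τ t => f (s + τ) t) (F' := fun τ t => g (s + τ) t) (x₀ := (0 : ℝ))
      (s := Metric.ball (0 : ℝ) 1) (bound := fun _ => K) (Metric.ball_mem_nhds _ one_pos)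
      ?_ ?_ ?_ ?_ ?_ ?_).2
    · refine Eventually.of_forall fun τ => ?_
      exact ((sec_cont hf (s + τ)).mono (uIoc_subset_uIcc.trans hsub)).aestronglyMeasurable
        measurableSet_uIoc
    · exact sec_int hf (s + 0) ha0 ha1 hb0 hb1
    · exact ((sec_cont hg (s + 0)).mono (uIoc_subset_uIcc.trans hsub)).aestronglyMeasurable
        measurableSet_uIoc
    · refine Eventually.of_forall fun t ht τ hτ => ?_
      rw [Metric.mem_ball, Real.dist_eq, sub_zero, abs_lt] at hτ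
      exact hK (s + τ, t) ⟨⟨by simp only; linarith [hτ.1], by simp only; linarith [hτ.2]⟩,
        uIoc_subset_uIcc ht⟩
    · exact intervalIntegrable_const
    · refine Eventually.of_forall fun t ht τ hτ => ?_
      have ht' := hsub (uIoc_subset_uIcc ht)
      have h1 := hder (s + τ) t ht'.1 ht'.2
      have h2 : HasDerivAt (fun τ : ℝ => s + τ) 1 τ := (hasDerivAt_id τ).const_add s
      have h3 := h1.comp τ h2
      rw [mul_one] at h3
      exact h3
  rw [add_zero] at hmain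
  have hE1 := end_der hf s b b' hb hb0 hb1
  have hE2 := end_der hf s a a' ha ha0 ha1
  have hsum := (hE1.sub hE2).add hmain
  refine hsum.congr_of_eventuallyEq ?_
  have hea : ∀ᶠ τ in 𝓝 (0 : ℝ), a τ ∈ Ioo (0 : ℝ) 1 :=
    ha.continuousAt.eventually (isOpen_Ioo.mem_nhds ⟨ha0, ha1⟩)
  have heb : ∀ᶠ τ in 𝓝 (0 : ℝ), b τ ∈ Ioo (0 : ℝ) 1 :=
    hb.continuousAt.eventually (isOpen_Ioo.mem_nhds ⟨hb0, hb1⟩)
  filter_upwards [hea, heb] with τ g1 g2
  have i1 := sec_int hf (s + τ) ha0 ha1 g1.1 g1.2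
  have i2 := sec_int hf (s + τ) ha0 ha1 hb0 hb1
  have i3 := sec_int hf (s + τ) hb0 hb1 g2.1 g2.2
  have i4 := sec_int hf (s + τ) g1.1 g1.2 hb0 hb1
  have e1 := intervalIntegral.integral_add_adjacent_intervals i1 i4
  have e2 := intervalIntegral.integral_add_adjacent_intervals i4 i3
  simp only [Pi.add_apply, Pi.sub_apply]
  linarith

end Pool.Agent.W481.CW

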